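import Pool.Agent.H29.FL4.Stmts

set_option autoImplicit false

open Matrix MeasureTheory

namespace Pool.FL4

open Pool.FLT

namespace H26VOL

instance haarVol (n : ℕ) : (Pool.FLT.vol n).IsAddHaarMeasure := by
  unfold Pool.FLT.vol; infer_instance

theorem co_def (x : aa 4) (i : Fin 4) : co x i = (x : EuclideanSpace ℝ (Fin 4)) i := rfl

theorem mem_sum (x : aa 4) : co x 0 + co x 1 + co x 2 + co x 3 = 0 := by
  have h : ∑ i, (x : EuclideanSpace ℝ (Fin 4)) i = 0 := x.2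
  rw [Fin.sum_univ_four] at h
  exact h

/-- the linear map multiplying the second and third basis vectors by `R`, on the whole space -/
noncomputable def F0 (R : ℝ) : EuclideanSpace ℝ (Fin 4) →ₗ[ℝ] EuclideanSpace ℝ (Fin 4) where
  toFun x := !₂[(x 0 + x 1) / 2 + R * ((x 0 - x 1) / 2), (x 0 + x 1) / 2 - R * ((x 0 - x 1) / 2),
    (x 2 + x 3) / 2 + R * ((x 2 - x 3) / 2), (x 2 + x 3) / 2 - R * ((x 2 - x 3) / 2)]
  map_add' x y := by
    ext i
    fin_cases i <;> simp <;> ring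
  map_smul' c x := by
    ext i
    fin_cases i <;> simp <;> ring

theorem F0_mem (R : ℝ) (x : EuclideanSpace ℝ (Fin 4)) (hx : x ∈ aa 4) : F0 R x ∈ aa 4 := by
  have h : ∑ i, x i = 0 := hx
  change ∑ i, (F0 R x) i = 0
  rw [Fin.sum_univ_four] at h ⊢
  simp only [F0, LinearMap.coe_mk, AddHom.coe_mk]
  simp
  linarith

/-- the restriction -/
noncomputable def F (R : ℝ) : aa 4 →ₗ[ℝ] aa 4 := (F0 R).restrict (F0_mem R)

theorem F_co (R : ℝ) (x : aa 4) :
    co (F R x) 0 = (co x 0 + co x 1) / 2 + R * ((co x 0 - co x 1) / 2) ∧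
    co (F R x) 1 = (co x 0 + co x 1) / 2 - R * ((co x 0 - co x 1) / 2) ∧
    co (F R x) 2 = (co x 2 + co x 3) / 2 + R * ((co x 2 - co x 3) / 2) ∧
    co (F R x) 3 = (co x 2 + co x 3) / 2 - R * ((co x 2 - co x 3) / 2) := by
  refine ⟨?_, ?_, ?_, ?_⟩ <;> simp [co_def, F, F0]

theorem cor_F {R p a b : ℝ} {x : aa 4} (h : cor x p a b) : cor (F R x) p (R * a) (R * b) := by
  obtain ⟨h0, h1, h2, h3⟩ := h
  obtain ⟨g0, g1, g2, g3⟩ := F_co R x
  refine ⟨?_, ?_, ?_, ?_⟩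
  · rw [g0, h0, h1]; ring
  · rw [g1, h0, h1]; ring
  · rw [g2, h2, h3]; ring
  · rw [g3, h2, h3]; ring

theorem ext4 {x y : aa 4} (h0 : co x 0 = co y 0) (h1 : co x 1 = co y 1) (h2 : co x 2 = co y 2)
    (h3 : co x 3 = co y 3) : x = y := by
  apply Subtype.ext
  ext i
  fin_cases i
  · exact h0
  · exact h1
  · exact h2
  · exact h3

/-- the vector with given coordinates -/
noncomputable def mk (p a b : ℝ) : aa 4 := ⟨!₂[p + a, p - a, -p + b, -p - b], by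
  change ∑ i, (!₂[p + a, p - a, -p + b, -p - b] : EuclideanSpace ℝ (Fin 4)) i = 0
  rw [Fin.sum_univ_four]
  simp⟩

theorem cor_mk (p a b : ℝ) : cor (mk p a b) p a b := by
  refine ⟨?_, ?_, ?_, ?_⟩ <;> simp [co_def, mk]

theorem cor_unique {x y : aa 4} {p a b : ℝ} (hx : cor x p a b) (hy : cor y p a b) : x = y := by
  obtain ⟨h0, h1, h2, h3⟩ := hx
  obtain ⟨g0, g1, g2, g3⟩ := hy
  exact ext4 (h0.trans g0.symm) (h1.trans g1.symm) (h2.trans g2.symm) (h3.trans g3.symm)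

/-- the set -/
def Bx (K R : ℝ) : Set (aa 4) :=
  {x : aa 4 | ∃ p a b : ℝ, |p| ≤ K ∧ |a| ≤ K * R ∧ |b| ≤ K * R ∧ cor x p a b}

theorem Bx_image (K R : ℝ) (hR : 1 ≤ R) : Bx K R = (F R) '' (Bx K 1) := by
  have hR0 : 0 < R := by linarith
  ext x
  constructor
  · rintro ⟨p, a, b, hp, ha, hb, hc⟩
    refine ⟨mk p (a / R) (b / R), ⟨p, a / R, b / R, hp, ?_, ?_, cor_mk _ _ _⟩, ?_⟩
    · rw [abs_div, abs_of_pos hR0, div_le_iff₀ hR0]; linarith
    · rw [abs_div, abs_of_pos hR0, div_le_iff₀ hR0]; linarith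
    · refine cor_unique (cor_F (cor_mk _ _ _)) ?_
      rw [mul_div_cancel₀ _ hR0.ne', mul_div_cancel₀ _ hR0.ne']
      exact hc
  · rintro ⟨y, ⟨p, a, b, hp, ha, hb, hc⟩, rfl⟩
    refine ⟨p, R * a, R * b, hp, ?_, ?_, cor_F hc⟩
    · rw [abs_mul, abs_of_pos hR0]; nlinarith
    · rw [abs_mul, abs_of_pos hR0]; nlinarith

theorem mk_cont : Continuous (fun t : ℝ × ℝ × ℝ => mk t.1 t.2.1 t.2.2) := by
  unfold mk
  refine Continuous.subtype_mk ?_ _
  refine (PiLp.continuous_toLp 2 _).comp ?_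
  refine continuous_pi fun i => ?_
  fin_cases i <;> simp <;> fun_prop

theorem Bx_one_eq (K : ℝ) : Bx K 1 = (fun t : ℝ × ℝ × ℝ => mk t.1 t.2.1 t.2.2) ''
    (Set.Icc (-K) K ×ˢ (Set.Icc (-K) K ×ˢ Set.Icc (-K) K)) := by
  ext x
  constructor
  · rintro ⟨p, a, b, hp, ha, hb, hc⟩
    refine ⟨(p, a, b), ⟨abs_le.1 hp, abs_le.1 (by simpa using ha), abs_le.1 (by simpa using hb)⟩, ?_⟩
    exact cor_unique (cor_mk _ _ _) hc
  · rintro ⟨⟨p, a, b⟩, ⟨hp, ha, hb⟩, rfl⟩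
    exact ⟨p, a, b, abs_le.2 hp, by simpa using abs_le.2 ha, by simpa using abs_le.2 hb, cor_mk _ _ _⟩

theorem Bx_compact_one (K : ℝ) : IsCompact (Bx K 1) := by
  rw [Bx_one_eq]
  exact ((isCompact_Icc.prod (isCompact_Icc.prod isCompact_Icc))).image mk_cont

theorem Bx_compact (K R : ℝ) (hR : 1 ≤ R) : IsCompact (Bx K R) := by
  rw [Bx_image K R hR]
  exact (Bx_compact_one K).image (LinearMap.continuous_of_finiteDimensional _)

theorem co_add (x y : aa 4) (i : Fin 4) : co (x + y) i = co x i + co y i := rfl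

theorem co_smul (c : ℝ) (x : aa 4) (i : Fin 4) : co (c • x) i = c * co x i := rfl

theorem cor_self (x : aa 4) :
    cor x ((co x 0 + co x 1) / 2) ((co x 0 - co x 1) / 2) ((co x 2 - co x 3) / 2) := by
  have h := mem_sum x
  refine ⟨by ring, by ring, ?_, ?_⟩ <;> linarith

/-- coordinates -/
noncomputable def E : aa 4 ≃ₗ[ℝ] (Fin 3 → ℝ) where
  toFun x := ![(co x 0 + co x 1) / 2, (co x 0 - co x 1) / 2, (co x 2 - co x 3) / 2]
  map_add' x y := by
    ext i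
    fin_cases i <;> simp [co_add] <;> ring
  map_smul' c x := by
    ext i
    fin_cases i <;> simp [co_smul] <;> ring
  invFun v := mk (v 0) (v 1) (v 2)
  left_inv x := cor_unique (cor_mk _ _ _) (cor_self x)
  right_inv v := by
    obtain ⟨h0, h1, h2, h3⟩ := cor_mk (v 0) (v 1) (v 2)
    ext i
    fin_cases i
    · simp [h0, h1]
    · simp [h0, h1]
    · simp [h2, h3]

theorem det_F (R : ℝ) : LinearMap.det (F R) = R ^ 2 := by
  rw [← LinearMap.det_conj (F R) E]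
  have h : (E : aa 4 →ₗ[ℝ] (Fin 3 → ℝ)) ∘ₗ F R ∘ₗ (E.symm : (Fin 3 → ℝ) →ₗ[ℝ] aa 4) =
      Matrix.toLin' (Matrix.diagonal ![1, R, R]) := by
    apply LinearMap.ext
    intro v
    have hv : E.symm v = mk (v 0) (v 1) (v 2) := rfl
    obtain ⟨h0, h1, h2, h3⟩ := cor_F (R := R) (cor_mk (v 0) (v 1) (v 2))
    rw [LinearMap.comp_apply, LinearMap.comp_apply, LinearEquiv.coe_coe, LinearEquiv.coe_coe, hv,
      Matrix.toLin'_apply]
    ext i
    rw [Matrix.mulVec_diagonal]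
    fin_cases i
    · simp [E, h0, h1]
    · simp [E, h0, h1]
    · simp [E, h2, h3]
  rw [h, LinearMap.det_toLin', Matrix.det_diagonal, Fin.prod_univ_three]
  simp [sq]

end H26VOL

open H26VOL in
theorem vol : VOLStmt := by
  intro K hK
  refine ⟨(Pool.FLT.vol 4 (Bx K 1)).toReal + 1, by positivity, fun R hR => ⟨Bx_compact K R hR, ?_⟩⟩
  change Pool.FLT.vol 4 (Bx K R) ≤ _
  have hfin : Pool.FLT.vol 4 (Bx K 1) ≠ ⊤ := (Bx_compact_one K).measure_lt_top.ne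
  rw [Bx_image K R hR, MeasureTheory.Measure.addHaar_image_linearMap, det_F,
    abs_of_nonneg (by positivity : (0 : ℝ) ≤ R ^ 2), ← ENNReal.ofReal_toReal hfin,
    ← ENNReal.ofReal_mul (by positivity)]
  apply ENNReal.ofReal_le_ofReal
  rw [ENNReal.ofReal_toReal hfin]
  nlinarith [sq_nonneg R, ENNReal.toReal_nonneg (a := Pool.FLT.vol 4 (Bx K 1))]

end Pool.FL4
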